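import Pool.Agent.Run7.h432.LV.Stm

/-!
# Project LV (helper432), piece VE
-/

set_option autoImplicit false

namespace Run7.h300.LV

open Run7.h432.LV

universe u

open Classical in
/-- the preimage of a variable -/
noncomputable def pre {ι κ : Type} (j : κ → ι) (i : ι) : Option κ :=
  if h : ∃ l, j l = i then some h.choose else none

open Classical in
/-- the new letter -/
noncomputable def let' {U : Type u} {ι κ : Type} (j : κ → ι) (x : ι → U) : U ⊕ ι → U ⊕ κ
  | Sum.inl c => Sum.inl c
  | Sum.inr i => if h : ∃ l, j l = i then Sum.inr h.choose else Sum.inl (x i)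

theorem pre_spec {ι κ : Type} {j : κ → ι} {i : ι} {l : κ} (h : l ∈ pre j i) : j l = i := by
  unfold pre at h
  split_ifs at h with h1
  · rw [Option.mem_some_iff] at h
    rw [← h]
    exact h1.choose_spec
  · simp at h

theorem let_right {U : Type u} {ι κ : Type} (j : κ → ι) (x : ι → U) (a : U ⊕ ι) :
    (let' j x a).getRight? = a.getRight?.bind (pre j) := by
  rcases a with c | i
  · rfl
  · show (let' j x (Sum.inr i)).getRight? = pre j i
    unfold let' pre
    by_cases h : ∃ l, j l = i
    · simp only [dif_pos h]
      rfl
    · simp only [dif_neg h]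
      rfl

theorem let_inj {U : Type u} {ι κ : Type} {j : κ → ι} (hj : Function.Injective j) (x : ι → U)
    (l : κ) : let' j x (Sum.inr (j l)) = Sum.inr l := by
  unfold let'
  have h : ∃ l', j l' = j l := ⟨l, rfl⟩
  simp only [dif_pos h]
  exact congrArg Sum.inr (hj h.choose_spec)

theorem once_let {U : Type u} {ι κ : Type} {j : κ → ι} (hj : Function.Injective j) (x : ι → U)
    {w : List (U ⊕ ι)} (hw : Once w) : Once (w.map (let' j x)) := by
  refine ⟨?_, fun l => ?_⟩
  · rw [List.filterMap_map]
    have e : Sum.getRight? ∘ let' j x = fun a => (Sum.getRight? a).bind (pre j) :=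
      funext fun a => let_right j x a
    rw [e, ← List.filterMap_filterMap]
    refine List.Nodup.filterMap ?_ hw.1
    intro a a' b hb hb'
    rw [← pre_spec hb, ← pre_spec hb']
  · rw [List.mem_map]
    exact ⟨Sum.inr (j l), hw.2 (j l), let_inj hj x l⟩

theorem ev_let {U : Type u} [Ring U] {ι κ : Type} (j : κ → ι) (x : ι → U) (w : List (U ⊕ ι))
    (y : κ → U) : ev w (Function.extend j y x) = ev (w.map (let' j x)) y := by
  unfold ev
  rw [List.map_map]
  congr 1
  refine List.map_congr_left fun a _ => ?_
  rcases a with c | i
  · rfl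
  · show Function.extend j y x i = Sum.elim id y (let' j x (Sum.inr i))
    unfold let' Function.extend
    by_cases h : ∃ l, j l = i
    · simp only [dif_pos h]
      rfl
    · simp only [dif_neg h]
      rfl

theorem t_VE : S_VE.{u} := by
  intro U _ ι κ F hF j hj x
  unfold V at hF
  induction hF using AddSubgroup.closure_induction with
  | mem F hF =>
    obtain ⟨w, hw, rfl⟩ := hF
    refine AddSubgroup.subset_closure ⟨w.map (let' j x), once_let hj x hw, ?_⟩
    funext y
    exact ev_let j x w y
  | zero => exact (V U κ).zero_mem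
  | add F G _ _ h1 h2 => exact (V U κ).add_mem h1 h2
  | neg F _ h1 => exact (V U κ).neg_mem h1

end Run7.h300.LV
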